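import Pool.Agent.helper32.QS.Spec

/-!
# QS.FIT: elements of order `p` centralising all normal `l`-subgroups, `l ≠ p`, are trivial
-/

set_option autoImplicit false

namespace QS

/-- the join of two normal subgroups of order prime to `p` has order prime to `p` -/
theorem FIT_sup {G : Type} [Group G] [Finite G] {p : ℕ} (hp : p.Prime) (A B : Subgroup G)
    [B.Normal] (hA : ¬ p ∣ Nat.card A) (hB : ¬ p ∣ Nat.card B) :
    ¬ p ∣ Nat.card (A ⊔ B : Subgroup G) := by
  have h1 : B.relIndex (A ⊔ B) = B.relIndex A := Subgroup.relIndex_sup_right A B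
  have h2 : Nat.card B * B.relIndex (A ⊔ B) = Nat.card (A ⊔ B : Subgroup G) :=
    by
      have h := Subgroup.relIndex_mul_relIndex ⊥ B (A ⊔ B) bot_le le_sup_right
      rwa [Subgroup.relIndex_bot_left, Subgroup.relIndex_bot_left] at h
  have h3 : B.relIndex A ∣ Nat.card A := Subgroup.relIndex_dvd_card B A
  intro h
  rw [← h2, h1] at h
  rcases hp.dvd_mul.1 h with h | h
  · exact hB h
  · exact hA (h.trans h3)

/-- there is a largest normal subgroup of order prime to `p` -/
theorem FIT_max {G : Type} [Group G] [Finite G] {p : ℕ} (hp : p.Prime) :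
    ∃ M : Subgroup G, M.Normal ∧ ¬ p ∣ Nat.card M ∧
      ∀ N : Subgroup G, N.Normal → ¬ p ∣ Nat.card N → N ≤ M := by
  classical
  have : Finite (Subgroup G) := inferInstance
  have hne : ({N : Subgroup G | N.Normal ∧ ¬ p ∣ Nat.card N}).Nonempty :=
    ⟨⊥, Subgroup.normal_bot, by
      rw [Subgroup.card_bot]
      exact fun h => hp.one_lt.ne' (Nat.dvd_one.1 h)⟩
  obtain ⟨M, hM, hmax⟩ := Set.exists_max_image _ (fun N : Subgroup G => Nat.card N)
    (Set.toFinite {N : Subgroup G | N.Normal ∧ ¬ p ∣ Nat.card N}) hne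
  refine ⟨M, hM.1, hM.2, fun N hN hpN => ?_⟩
  have := hM.1
  have := hN
  have h1 : ¬ p ∣ Nat.card (N ⊔ M : Subgroup G) := FIT_sup hp N M hpN hM.2
  have h2 : Nat.card (N ⊔ M : Subgroup G) ≤ Nat.card M :=
    hmax (N ⊔ M) ⟨inferInstance, h1⟩
  have h3 : M = N ⊔ M := Subgroup.eq_of_le_of_card_ge le_sup_right h2
  rw [h3]
  exact le_sup_left

theorem FIT (hNQL : NQL_stmt) : FIT_stmt := by
  intro G _ _ p hp hsol hP x hx hcent
  obtain ⟨M, hMn, hMp, hMmax⟩ := FIT_max (G := G) hp
  set S : Set (Subgroup G) := {Q | Q.Normal ∧ ∃ l : ℕ, l.Prime ∧ l ≠ p ∧ IsPGroup l Q} with hS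
  have hSM : sSup S ≤ M := by
    refine sSup_le fun Q hQ => ?_
    obtain ⟨hQn, l, hl, hlp, hQl⟩ := hQ
    refine hMmax Q hQn fun hd => ?_
    have : Fact l.Prime := ⟨hl⟩
    obtain ⟨n, hn⟩ := IsPGroup.iff_card.1 hQl
    rw [hn] at hd
    exact hlp ((Nat.prime_dvd_prime_iff_eq hp hl).1 (hp.dvd_of_dvd_pow hd)).symm
  have hRn : (sSup S).Normal := Subgroup.sSup_normal S fun Q hQ => hQ.1
  set R : Subgroup G := sSup S with hR
  have hxR : x ∈ Subgroup.centralizer (R : Set G) := by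
    have h1 : R ≤ Subgroup.centralizer ({x} : Set G) := by
      refine sSup_le fun Q hQ => ?_
      obtain ⟨hQn, l, hl, hlp, hQl⟩ := hQ
      intro y hy
      rw [Subgroup.mem_centralizer_singleton_iff]
      exact (hcent l Q hl hlp hQn hQl y hy).symm
    rw [Subgroup.mem_centralizer_iff]
    intro h hh
    exact (Subgroup.mem_centralizer_singleton_iff.1 (h1 hh))
  have hCR : Subgroup.centralizer (R : Set G) ≤ R := by
    by_contra hnot
    have hZC : ¬ Subgroup.centralizer (R : Set G) ≤ Subgroup.centralizer (R : Set G) ⊓ R :=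
      fun h => hnot (h.trans inf_le_right)
    have := hRn
    obtain ⟨l, Q, hl, hQn, hQl, hQC, hQZ, -⟩ := hNQL G hsol (Subgroup.centralizer (R : Set G) ⊓ R)
      (Subgroup.centralizer (R : Set G)) inferInstance inferInstance inf_le_left
      (fun z hz c hc => (Subgroup.mem_centralizer_iff.1 hc z hz.2)) hZC
    by_cases hlp : l = p
    · subst hlp
      have h0 : Q = ⊥ := hP Q hQn hQl
      exact hQZ (h0 ▸ bot_le)
    · exact hQZ (le_inf hQC (le_sSup ⟨hQn, l, hl, hlp, hQl⟩))
  have hxM : x ∈ M := hSM (hCR hxR)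
  have h1 : orderOf x ∣ p := orderOf_dvd_of_pow_eq_one hx
  have h2 : orderOf x ∣ Nat.card M := by
    have h3 : orderOf (⟨x, hxM⟩ : M) ∣ Nat.card M := orderOf_dvd_natCard _
    rwa [Subgroup.orderOf_mk] at h3
  rcases (Nat.dvd_prime hp).1 h1 with h | h
  · exact orderOf_eq_one_iff.1 h
  · exact absurd (h ▸ h2) hMp

end QS
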